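import Pool.Agent.Helper3.AK.Goals3

/-!
# Project AK, packet FL (one level)
-/

set_option linter.unusedVariables false

namespace Pool.Agent.Helper3.AK

open Equiv

namespace FL

variable {n r k : ℕ}

theorem ip_Act (g : Perm (Fin n)) (φ ψ : Fn n r) : ip φ (Act g ψ) = ip (Act g⁻¹ φ) ψ := by
  unfold ip
  let e : (Fin r ↪ Fin n) ≃ (Fin r ↪ Fin n) :=
    { toFun := fun a => a.trans g.toEmbedding
      invFun := fun a => a.trans (g⁻¹ : Perm (Fin n)).toEmbedding
      left_inv := fun a => by ext i; simp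
      right_inv := fun a => by ext i; simp }
  refine Fintype.sum_equiv e _ _ fun a => ?_
  have h1 : (e a).trans (g⁻¹ : Perm (Fin n)).toEmbedding = a := by
    ext i; simp [e]
  have h2 : e a = a.trans g.toEmbedding := rfl
  rw [Act_apply, Act_apply, h1, h2]

theorem ip_comm (φ ψ : Fn n r) : ip φ ψ = ip ψ φ := by
  unfold ip; exact Finset.sum_congr rfl fun a _ => mul_comm _ _

theorem ip_add (φ ψ χ : Fn n r) : ip φ (ψ + χ) = ip φ ψ + ip φ χ := by
  unfold ip; rw [← Finset.sum_add_distrib]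
  exact Finset.sum_congr rfl fun a _ => by simp [mul_add]

theorem ip_smul (c : ℝ) (φ ψ : Fn n r) : ip φ (c • ψ) = c * ip φ ψ := by
  unfold ip; rw [Finset.mul_sum]
  exact Finset.sum_congr rfl fun a _ => by
    simp only [Pi.smul_apply, smul_eq_mul]; ring

theorem ip_sum {ι : Type*} (s : Finset ι) (φ : Fn n r) (f : ι → Fn n r) :
    ip φ (∑ i ∈ s, f i) = ∑ i ∈ s, ip φ (f i) := by
  unfold ip; rw [Finset.sum_comm]
  exact Finset.sum_congr rfl fun a _ => by rw [Finset.sum_apply, Finset.mul_sum]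

theorem ip_self_nonneg (φ : Fn n r) : 0 ≤ ip φ φ := by
  unfold ip; exact Finset.sum_nonneg fun a _ => mul_self_nonneg _

theorem Wk_symm (z : Fin k → Alt n) (φ ψ : Fn n r) : ip φ (Wk z ψ) = ip (Wk z φ) ψ := by
  have h1 : ∀ χ : Fn n r, Wk z χ = (2 * (k : ℝ))⁻¹ •
      ∑ i, (Act (z i : Perm (Fin n)) χ + Act ((z i : Perm (Fin n))⁻¹) χ) := by
    intro χ; simp [Wk]
  rw [h1, h1, ip_smul, ip_comm _ ψ, ip_smul, ip_sum, ip_sum]
  congr 1
  refine Finset.sum_congr rfl fun i _ => ?_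
  rw [ip_add, ip_add, ip_Act, ip_Act, inv_inv, ip_comm ψ, ip_comm ψ]; ring

theorem Lz_symm (z : Fin k → Alt n) (φ ψ : Fn n r) : ip φ (Lz z ψ) = ip (Lz z φ) ψ := by
  have h1 : ∀ χ : Fn n r, Lz z χ = (1 / 2 : ℝ) • (χ + Wk z χ) := by
    intro χ; simp [Lz]
  rw [h1, h1, ip_smul, ip_comm _ ψ, ip_smul, ip_add, ip_add, Wk_symm, ip_comm ψ φ, ip_comm ψ]

theorem pow_symm (A : Fn n r →ₗ[ℝ] Fn n r) (h : ∀ φ ψ, ip φ (A ψ) = ip (A φ) ψ) (m : ℕ) :
    ∀ φ ψ, ip φ ((A ^ m) ψ) = ip ((A ^ m) φ) ψ := by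
  induction m with
  | zero => intro φ ψ; simp
  | succ m ih =>
    intro φ ψ
    have hc : A * A ^ m = A ^ m * A := (Commute.self_pow A m).eq
    rw [pow_succ, Module.End.mul_apply, ih, h, ← Module.End.mul_apply, hc]

theorem Gop_symm (z : Fin k → Alt n) (y : Alt n) (m : ℕ) (φ ψ : Fn n r) :
    ip φ (Gop z y m ψ) = ip (Gop z y m φ) ψ := by
  have hL := fun j => pow_symm (Lz z) (Lz_symm (r := r) z) j
  simp only [Gop, Module.End.mul_apply]
  rw [hL, ip_Act, hL, ip_Act, inv_inv, hL]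

/-- the trace sum -/
noncomputable def Phi (z : Fin k → Alt n) (r m q : ℕ) (y : Alt n) : ℝ :=
  ∑ c : Pts n r, ip (tst c) ((Gop z y m ^ (2 * q)) (tst c))

theorem Phi_nonneg (z : Fin k → Alt n) (r m q : ℕ) (y : Alt n) : 0 ≤ Phi z r m q y := by
  unfold Phi
  refine Finset.sum_nonneg fun c _ => ?_
  rw [two_mul, pow_add, Module.End.mul_apply, pow_symm _ (Gop_symm z y m)]
  exact ip_self_nonneg _

theorem Phi_bad (h1 : S_TR) (h4 : S_OP) (z : Fin k → Alt n) (m q : ℕ) (y : Alt n) (ε₁ a : ℝ)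
    (hk : 1 ≤ k) (hn : 5 * r ≤ n) (h0 : 0 < ε₁) (h01 : ε₁ < 1) (ha : 0 ≤ a)
    (hs : √(2 * (k + 1) * a) + 2 * √(a / ε₁) ≤ 1 / 4)
    (hb : BadLev (Fin.snoc (α := fun _ => Alt n) z y) r a) :
    (4 / 9) * ((n - r).descFactorial r : ℝ) * ((1 - ε₁) ^ (4 * m) / 4) ^ (2 * q) ≤
      Phi z r m q y := by
  obtain ⟨f, μ, hf, hz, he, hμ⟩ := hb
  obtain ⟨v, lam, hv, hzv, hev, hl⟩ := h4 n k r m z y ε₁ a hk h0 h01 ha hs f μ hf hz he hμ.le
  have h := h1 n r hn (Gop z y m) (Gop_symm z y m) v hzv hv lam hev q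
  refine le_trans ?_ h
  have h2 : (0 : ℝ) ≤ (1 - ε₁) ^ (4 * m) / 4 := by
    have : (0 : ℝ) ≤ 1 - ε₁ := by linarith
    positivity
  have h3 : ((1 - ε₁) ^ (4 * m) / 4) ^ (2 * q) ≤ lam ^ (2 * q) := pow_le_pow_left₀ h2 hl _
  exact mul_le_mul_of_nonneg_left h3 (by positivity)

/-- the probability bound summed over the generator -/
theorem Phi_sum (h2 : S_DDP) (h3 : S_INV) (h5 : S_EX) (h6 : S_CT) (z : Fin k → Alt n)
    (R m T' : ℕ) (hk : 1 ≤ k) (hR : 16 ≤ R) (hRr : R ≤ r) (hT : 1 ≤ T')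
    (hn : 2 * r * (8 * T') + 2 ≤ n) (hw1 : Wise (lazyLaw z m) R)
    (hw2 : Wise (lazyLaw z (2 * m)) R) :
    ∑ y, Phi z r m (2 * T') y ≤ 2 ^ r * ((n.descFactorial (2 * r) : ℝ) * (Nat.card (Alt n) *
      (2 ^ (8 * T') * (2 * (64 * r * (8 * T') / n : ℝ) ^ (R / 16)) ^ T'))) := by
  classical
  have e1 : 2 * (2 * T') = 4 * T' := by ring
  have e2 : 2 * (4 * T') = 8 * T' := by ring
  have hwgt : ∀ t, Wise (wgt z m (8 * T') t) R := by
    intro t
    unfold wgt
    split_ifs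
    · exact hw1
    · exact hw2
  have hEX : ∀ y : Alt n, (Gop z y m : Fn n r →ₗ[ℝ] Fn n r) ^ (4 * T') =
      ∑ u : Fin (8 * T' + 1) → Perm (Fin n), (∏ t : Fin (8 * T' + 1), wgt z m (8 * T') t (u t)) •
      Act (extP u (8 * T') * zpos (one1 y) (extP u) alt1 (8 * T')) := by
    intro y
    have h := h5 n k r m (4 * T') z y hk (by omega)
    rw [e2] at h
    exact h
  have hA : ∀ y : Alt n, Phi z r m (2 * T') y = ∑ c : Pts n r,
      ∑ u : Fin (8 * T' + 1) → Perm (Fin n), (∏ t : Fin (8 * T' + 1), wgt z m (8 * T') t (u t)) *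
        ∏ i, DD c (extP u (8 * T') * zpos (one1 y) (extP u) alt1 (8 * T')) i := by
    intro y
    unfold Phi
    refine Finset.sum_congr rfl fun c _ => ?_
    rw [e1, hEX, LinearMap.sum_apply, ip_sum]
    refine Finset.sum_congr rfl fun u _ => ?_
    rw [LinearMap.smul_apply, ip_smul, (h2 n r c _).1]
  have hINV : ∀ (c : Pts n r) (u : Fin (8 * T' + 1) → Perm (Fin n)),
      ∑ y : Alt n, ∏ i, DD c (extP u (8 * T') * zpos (one1 y) (extP u) alt1 (8 * T')) i ≤
        2 ^ r * ∑ y : Alt n, (if Mev (one1 y) (extP u) alt1 (8 * T') c then (1 : ℝ) else 0) := by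
    intro c u
    have h := h3 n r 1 (8 * T') hn c (extP u) alt1
    let e : Alt n ≃ (Fin 1 → Alt n) :=
      { toFun := one1
        invFun := fun x => x 0
        left_inv := fun y => rfl
        right_inv := fun x => by
          funext i
          rw [Subsingleton.elim i 0]; rfl }
    have hs : ∑ y : Alt n, ∏ i, DD c (extP u (8 * T') * zpos (one1 y) (extP u) alt1 (8 * T')) i =
        ∑ x : Fin 1 → Alt n, ∏ i, DD c (extP u (8 * T') * zpos x (extP u) alt1 (8 * T')) i :=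
      Fintype.sum_equiv e _ _ fun y => rfl
    have hc : ∑ y : Alt n, (if Mev (one1 y) (extP u) alt1 (8 * T') c then (1 : ℝ) else 0) =
        (Nat.card {x : Fin 1 → Alt n // Mev x (extP u) alt1 (8 * T') c} : ℝ) := by
      have hx : ∑ y : Alt n, (if Mev (one1 y) (extP u) alt1 (8 * T') c then (1 : ℝ) else 0) =
          ∑ x : Fin 1 → Alt n, (if Mev x (extP u) alt1 (8 * T') c then (1 : ℝ) else 0) :=
        Fintype.sum_equiv e _ _ fun y => rfl
      rw [hx, Finset.sum_boole, Nat.card_eq_fintype_card, Fintype.card_subtype]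
    rw [hs, hc]
    exact le_trans (le_abs_self _) h
  have hWn : ∀ u : Fin (8 * T' + 1) → Perm (Fin n),
      0 ≤ ∏ t : Fin (8 * T' + 1), wgt z m (8 * T') t (u t) := by
    intro u
    exact Finset.prod_nonneg fun t _ => (hwgt t).nonneg _
  set P : ℝ := 2 ^ (8 * T') * (2 * (64 * r * (8 * T') / n : ℝ) ^ (R / 16)) ^ T' with hP
  have hCT : ∀ (c : Pts n r) (y : Alt n),
      ∑ u : Fin (8 * T' + 1) → Perm (Fin n),
        (∏ t : Fin (8 * T' + 1), wgt z m (8 * T') t (u t)) *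
          (if Mev (one1 y) (extP u) alt1 (8 * T') c then (1 : ℝ) else 0) ≤ P := by
    intro c y
    have h := h6 n r R T' hR hRr hT (by omega) (wgt z m (8 * T')) (fun t _ => hwgt t) y c
    refine le_trans (le_of_eq ?_) h
    refine Finset.sum_congr rfl fun u _ => ?_
    split_ifs <;> simp
  calc ∑ y, Phi z r m (2 * T') y
      = ∑ c : Pts n r, ∑ u : Fin (8 * T' + 1) → Perm (Fin n),
          (∏ t : Fin (8 * T' + 1), wgt z m (8 * T') t (u t)) *
          ∑ y : Alt n, ∏ i, DD c (extP u (8 * T') * zpos (one1 y) (extP u) alt1 (8 * T')) i := by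
        simp_rw [hA]
        rw [Finset.sum_comm]
        refine Finset.sum_congr rfl fun c _ => ?_
        rw [Finset.sum_comm]
        refine Finset.sum_congr rfl fun u _ => ?_
        rw [Finset.mul_sum]
    _ ≤ ∑ c : Pts n r, ∑ u : Fin (8 * T' + 1) → Perm (Fin n),
          (∏ t : Fin (8 * T' + 1), wgt z m (8 * T') t (u t)) *
          (2 ^ r * ∑ y : Alt n,
            (if Mev (one1 y) (extP u) alt1 (8 * T') c then (1 : ℝ) else 0)) := by
        refine Finset.sum_le_sum fun c _ => Finset.sum_le_sum fun u _ => ?_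
        exact mul_le_mul_of_nonneg_left (hINV c u) (hWn u)
    _ = ∑ c : Pts n r, ∑ y : Alt n, 2 ^ r * ∑ u : Fin (8 * T' + 1) → Perm (Fin n),
          (∏ t : Fin (8 * T' + 1), wgt z m (8 * T') t (u t)) *
            (if Mev (one1 y) (extP u) alt1 (8 * T') c then (1 : ℝ) else 0) := by
        refine Finset.sum_congr rfl fun c _ => ?_
        simp_rw [Finset.mul_sum]
        rw [Finset.sum_comm]
        refine Finset.sum_congr rfl fun y _ => Finset.sum_congr rfl fun u _ => ?_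
        ring
    _ ≤ ∑ c : Pts n r, ∑ y : Alt n, 2 ^ r * P := by
        refine Finset.sum_le_sum fun c _ => Finset.sum_le_sum fun y _ => ?_
        exact mul_le_mul_of_nonneg_left (hCT c y) (by positivity)
    _ = 2 ^ r * ((n.descFactorial (2 * r) : ℝ) * (Nat.card (Alt n) * P)) := by
        have hc : Fintype.card (Pts n r) = n.descFactorial (2 * r) := by
          rw [Fintype.card_embedding_eq, Fintype.card_prod, Fintype.card_fin, Fintype.card_fin,
            Fintype.card_bool, mul_comm r 2]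
        rw [Finset.sum_const, Finset.sum_const, Finset.card_univ, Finset.card_univ, hc,
          Nat.card_eq_fintype_card, nsmul_eq_mul, nsmul_eq_mul]
        ring

end FL

open FL in
/-- **FL** (one level). -/
theorem fl (h1 : S_TR) (h2 : S_DDP) (h3 : S_INV) (h4 : S_OP) (h5 : S_EX) (h6 : S_CT) : S_FL := by
  classical
  intro n k r R m T' z ε₁ a hk hR hRr hT hn hn2 hw1 hw2 h0 h01 ha hs
  have hsum := Phi_sum (r := r) h2 h3 h5 h6 z R m T' hk hR hRr hT hn2 hw1 hw2
  set P : ℝ := 2 ^ (8 * T') * (2 * (64 * r * (8 * T') / n : ℝ) ^ (R / 16)) ^ T' with hP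
  have hP0 : 0 ≤ P := by positivity
  set lam : ℝ := ((1 - ε₁) ^ (4 * m) / 4) ^ (4 * T') with hlam
  set D : ℝ := ((n - r).descFactorial r : ℝ) with hD
  have hDpos : 0 < D := by
    rw [hD]
    have : 0 < (n - r).descFactorial r := Nat.descFactorial_pos.mpr (by omega)
    exact_mod_cast this
  have hbad : (Nat.card {y : Alt n // BadLev (Fin.snoc (α := fun _ => Alt n) z y) r a} : ℝ) *
      ((4 / 9) * D * lam) ≤ ∑ y, Phi z r m (2 * T') y := by
    rw [Nat.card_eq_fintype_card, Fintype.card_subtype, ← nsmul_eq_mul, ← Finset.sum_const]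
    refine le_trans (Finset.sum_le_sum (fun y hy => ?_))
      (Finset.sum_le_sum_of_subset_of_nonneg (Finset.filter_subset _ _)
        (fun y _ _ => Phi_nonneg z r m (2 * T') y))
    have h := Phi_bad (r := r) h1 h4 z m (2 * T') y ε₁ a hk hn h0 h01 ha hs
      (Finset.mem_filter.mp hy).2
    have e : 2 * (2 * T') = 4 * T' := by ring
    rw [e] at h
    exact h
  have hfac : (n.descFactorial (2 * r) : ℝ) ≤ (n : ℝ) ^ r * D := by
    have h : n.descFactorial (2 * r) = (n - r).descFactorial r * n.descFactorial r := by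
      have := Nat.descFactorial_mul_descFactorial (k := r) (m := 2 * r) (n := n) (by omega)
      rw [show 2 * r - r = r by omega] at this
      exact this.symm
    rw [h, Nat.cast_mul, mul_comm]
    refine mul_le_mul_of_nonneg_right ?_ hDpos.le
    exact_mod_cast Nat.descFactorial_le_pow n r
  have hmain : (Nat.card {y : Alt n // BadLev (Fin.snoc (α := fun _ => Alt n) z y) r a} : ℝ) *
      ((4 / 9) * D * lam) ≤ 2 ^ r * (((n : ℝ) ^ r * D) * (Nat.card (Alt n) * P)) := by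
    refine le_trans hbad (le_trans hsum ?_)
    refine mul_le_mul_of_nonneg_left ?_ (by positivity)
    exact mul_le_mul_of_nonneg_right hfac (by positivity)
  have hD9 : (0 : ℝ) < 4 / 9 * D := by positivity
  refine le_of_mul_le_mul_left ?_ hD9
  calc 4 / 9 * D * ((Nat.card {y : Alt n // BadLev (Fin.snoc (α := fun _ => Alt n) z y) r a} : ℝ)
        * lam)
      = (Nat.card {y : Alt n // BadLev (Fin.snoc (α := fun _ => Alt n) z y) r a} : ℝ) *
      ((4 / 9) * D * lam) := by ring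
    _ ≤ 2 ^ r * (((n : ℝ) ^ r * D) * (Nat.card (Alt n) * P)) := hmain
    _ = 4 / 9 * D * (Nat.card (Alt n) * ((9 / 4) * (n : ℝ) ^ r * 2 ^ r * P)) := by ring

end Pool.Agent.Helper3.AK
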